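import Mathlib

namespace Pool.Agent.Results.MP_e2add3_co.Thirty

open SimpleGraph Finset

def rows : List ℕ :=
  [536543232, 536543232, 28048384, 28048384, 536543232, 1069219840, 28277760, 28277760,
   1069219840, 28277760, 1045430988, 1045430988, 1045430988, 1045430988, 1045430988, 1072693260,
   541066239, 541066239, 1072693952, 541066239, 326963, 295935, 1047571, 295935, 295935, 326963,
   326963, 326963, 326963, 1047840]

def adj (u v : Fin 3 × Fin 10) : Bool :=
  (rows.getD (10 * u.1.val + u.2.val) 0).testBit (10 * v.1.val + v.2.val)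

def G : SimpleGraph (Fin 3 × Fin 10) where
  Adj u v := adj u v = true
  symm := ⟨by decide +kernel⟩
  loopless := ⟨by decide +kernel⟩

instance : DecidableRel G.Adj := fun u v => inferInstanceAs (Decidable (adj u v = true))

theorem part : ∀ u v, G.Adj u v → u.1 ≠ v.1 := by decide +kernel

theorem deg : ∀ v, 10 + 2 ≤ #(univ.filter fun w => G.Adj v w) := by decide +kernel

def T : Finset (Fin 10 × Fin 10 × Fin 10) :=
  univ.filter fun q => G.Adj (0, q.1) (1, q.2.1) ∧ G.Adj (0, q.1) (2, q.2.2) ∧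
    G.Adj (1, q.2.1) (2, q.2.2)

set_option maxRecDepth 100000 in
theorem cardT : #T = 30 := by decide +kernel

theorem tri : (G.cliqueSet 3).ncard ≤ 30 := by
  rw [← cardT]
  refine le_trans (Set.ncard_le_ncard (t := ((T.image fun q =>
    ({(0, q.1), (1, q.2.1), (2, q.2.2)} : Finset (Fin 3 × Fin 10)) : Finset _) : Set _)) ?_
    (Finset.finite_toSet _)) ?_
  · intro s hs
    obtain ⟨⟨i, a⟩, ⟨j, b⟩, ⟨k, c⟩, h1, h2, h3, rfl⟩ := is3Clique_iff.1 hs
    have p1 := part _ _ h1
    have p2 := part _ _ h2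
    have p3 := part _ _ h3
    simp only [coe_image, Set.mem_image, mem_coe, T, mem_filter, mem_univ, true_and]
    fin_cases i <;> fin_cases j <;> fin_cases k <;> simp only [ne_eq, not_true_eq_false] at p1 p2 p3
    · exact ⟨(a, b, c), ⟨h1, h2, h3⟩, rfl⟩
    · exact ⟨(a, c, b), ⟨h2, h1, h3.symm⟩, by ext; simp; tauto⟩
    · exact ⟨(b, a, c), ⟨h1.symm, h3, h2⟩, by ext; simp; tauto⟩
    · exact ⟨(c, a, b), ⟨h2.symm, h3.symm, h1⟩, by ext; simp; tauto⟩
    · exact ⟨(b, c, a), ⟨h3, h1.symm, h2.symm⟩, by ext; simp; tauto⟩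
    · exact ⟨(c, b, a), ⟨h3.symm, h2.symm, h1.symm⟩, by ext; simp; tauto⟩
  · rw [Set.ncard_coe_finset]
    exact card_image_le

theorem result : ¬ ∀ t n : ℕ, 1 ≤ t → 5 * t ≤ n → ∀ H : SimpleGraph (Fin 3 × Fin n),
    (∀ u v, H.Adj u v → u.1 ≠ v.1) → (∀ v, n + t ≤ (H.neighborSet v).ncard) →
      4 * t ^ 3 ≤ (H.cliqueSet 3).ncard := by
  intro h
  have := h 2 10 (by norm_num) (by norm_num) G part (fun v => by
    rw [Set.ncard_eq_toFinset_card']
    convert deg v
    ext w
    simp)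
  have := tri
  omega

end Pool.Agent.Results.MP_e2add3_co.Thirty
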